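import Mathlib

set_option autoImplicit false

/-!
Growth functions of finitely presented semigroups: a diagonal argument.
-/

namespace Pool.Agent.Y27.Osc

open Filter Topology
open scoped Pointwise

universe u

/-- elements of `S` represented by nonempty words of length at most `n` over `X` -/
def ball {S : Type u} [Semigroup S] (X : Finset S) (n : ℕ) : Set S :=
  {s : S | ∃ w : FreeSemigroup X, w.length ≤ n ∧ FreeSemigroup.lift (fun x : X => (x : S)) w = s}

/-- growth function of `S` with respect to the finite set `X` -/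
noncomputable def growth {S : Type u} [Semigroup S] (X : Finset S) (n : ℕ) : ℕ :=
  (ball X n).ncard

section sub

variable {S : Type u} [Semigroup S] (X : Finset S)

theorem ball_zero : ball X 0 = ∅ := by
  ext s
  simp only [ball, Set.mem_ofPred_eq, Set.mem_empty_iff_false, iff_false, not_exists, not_and]
  intro w hw
  have : 1 ≤ w.length := by simp [FreeSemigroup.length]
  omega

theorem ball_succ (n : ℕ) : ball X (n + 1) = (X : Set S) ∪ (X : Set S) * ball X n := by
  ext s
  constructor
  · rintro ⟨w, hw, rfl⟩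
    rcases w with ⟨x, l⟩
    cases l with
    | nil => left; exact x.2
    | cons y t =>
      right
      have e : (⟨x, y :: t⟩ : FreeSemigroup X) = FreeSemigroup.of x * ⟨y, t⟩ := rfl
      rw [e, FreeSemigroup.lift_of_mul]
      refine Set.mul_mem_mul x.2 ⟨⟨y, t⟩, ?_, rfl⟩
      simp only [FreeSemigroup.length, List.length_cons] at hw ⊢
      omega
  · rintro (hs | hs)
    · exact ⟨FreeSemigroup.of ⟨s, hs⟩, by simp, rfl⟩
    · obtain ⟨x, hx, y, ⟨w, hw, rfl⟩, rfl⟩ := hs
      refine ⟨FreeSemigroup.of ⟨x, hx⟩ * w, ?_, ?_⟩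
      · rw [FreeSemigroup.length_mul, FreeSemigroup.length_of]; omega
      · rw [FreeSemigroup.lift_of_mul]

theorem ball_mono (n : ℕ) : ball X n ⊆ ball X (n + 1) := by
  rintro s ⟨w, hw, h⟩
  exact ⟨w, by omega, h⟩

theorem ball_finite (n : ℕ) : (ball X n).Finite := by
  induction n with
  | zero => rw [ball_zero]; exact Set.finite_empty
  | succ n ih => rw [ball_succ]; exact X.finite_toSet.union (X.finite_toSet.mul ih)

open Classical in
/-- the ball with the identity, in the monoid `S¹` -/
noncomputable def X1 : Finset (WithOne S) :=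
  insert 1 (X.image (fun s : S => (s : WithOne S)))

open Classical in
theorem coe_X1_pow (n : ℕ) :
    ((X1 X ^ n : Finset (WithOne S)) : Set (WithOne S)) =
      insert 1 ((fun s : S => (s : WithOne S)) '' ball X n) := by
  induction n with
  | zero => simp [ball_zero]; rfl
  | succ n ih =>
    rw [pow_succ', Finset.coe_mul, ih]
    ext z
    constructor
    · rintro ⟨p, hp, q, hq, rfl⟩
      have hp' : p = 1 ∨ ∃ s ∈ X, (s : WithOne S) = p := by
        simpa [X1] using hp
      rcases hp' with rfl | ⟨s, hs, rfl⟩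
      · rcases hq with rfl | ⟨t, ht, rfl⟩
        · simp
        · right; exact ⟨t, ball_mono X n ht, by simp⟩
      · rcases hq with rfl | ⟨t, ht, rfl⟩
        · right
          refine ⟨s, ?_, by simp⟩
          rw [ball_succ]; left; exact hs
        · right
          refine ⟨s * t, ?_, by simp⟩
          rw [ball_succ]; right; exact Set.mul_mem_mul hs ht
    · rintro (rfl | ⟨s, hs, rfl⟩)
      · exact ⟨1, by simp [X1], 1, by simp, by simp⟩
      · rw [ball_succ] at hs
        rcases hs with hs | ⟨x, hx, y, hy, rfl⟩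
        · refine ⟨(s : WithOne S), ?_, 1, by simp, by simp⟩
          simp only [X1, Finset.coe_insert, Finset.coe_image]
          right; exact ⟨s, hs, rfl⟩
        · refine ⟨(x : WithOne S), ?_, (y : WithOne S), ?_, by simp⟩
          · simp only [X1, Finset.coe_insert, Finset.coe_image]
            right; exact ⟨x, hx, rfl⟩
          · right; exact ⟨y, hy, rfl⟩

open Classical in
theorem card_X1_pow (n : ℕ) : (X1 X ^ n).card = growth X n + 1 := by
  have h := coe_X1_pow X n
  rw [← Set.ncard_coe_finset, h, Set.ncard_insert_of_notMem ?_ ((ball_finite X n).image _),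
    Set.ncard_image_of_injective _ WithOne.coe_injective]
  · rfl
  · rintro ⟨s, -, hs⟩
    exact WithOne.coe_ne_one hs

theorem growth_submul (m n : ℕ) :
    growth X (m + n) + 1 ≤ (growth X m + 1) * (growth X n + 1) := by
  classical
  rw [← card_X1_pow, ← card_X1_pow, ← card_X1_pow, pow_add]
  exact Finset.card_mul_le

end sub

/-- `f` has subexponential growth -/
def Subexp (f : ℕ → ℕ) : Prop := ∀ c : ℝ, 1 < c → ∀ᶠ n : ℕ in atTop, (f n : ℝ) ≤ c ^ n

/-- Dichotomy for submultiplicative functions -/
theorem dichotomy (F : ℕ → ℕ) (h1 : ∀ n, 1 ≤ F n) (hF : ∀ m n, F (m + n) ≤ F m * F n) :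
    Subexp F ∨ ∃ c : ℝ, 1 < c ∧ ∀ n, c ^ n ≤ (F n : ℝ) := by
  have hpos : ∀ n, (0 : ℝ) < F n := fun n => by exact_mod_cast h1 n
  have hlog0 : ∀ n, 0 ≤ Real.log (F n) := fun n => Real.log_nonneg (by exact_mod_cast h1 n)
  have hsub : Subadditive (fun n => Real.log (F n)) := by
    intro m n
    rw [← Real.log_mul (hpos m).ne' (hpos n).ne']
    apply Real.log_le_log (hpos _)
    exact_mod_cast hF m n
  have hbdd : BddBelow (Set.range fun n : ℕ => Real.log (F n) / n) := by
    refine ⟨0, ?_⟩
    rintro _ ⟨n, rfl⟩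
    exact div_nonneg (hlog0 n) (Nat.cast_nonneg n)
  have hlim := hsub.tendsto_lim hbdd
  have hlim0 : 0 ≤ hsub.lim := by
    refine ge_of_tendsto' hlim fun n => div_nonneg (hlog0 n) (Nat.cast_nonneg n)
  rcases hlim0.eq_or_lt with h | h
  · left
    intro c hc
    rw [← h] at hlim
    have hc' : 0 < Real.log c := Real.log_pos hc
    filter_upwards [hlim.eventually (gt_mem_nhds hc'), eventually_gt_atTop 0] with n hn hn0
    have hn0' : (0 : ℝ) < n := by exact_mod_cast hn0
    rw [div_lt_iff₀ hn0'] at hn
    rw [← Real.log_le_log_iff (hpos n) (by positivity), Real.log_pow]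
    linarith
  · right
    refine ⟨Real.exp hsub.lim, Real.one_lt_exp_iff.2 h, fun n => ?_⟩
    rcases Nat.eq_zero_or_pos n with rfl | hn
    · simpa using h1 0
    · have hle := hsub.lim_le_div hbdd hn.ne'
      have hn' : (0 : ℝ) < n := by exact_mod_cast hn
      rw [le_div_iff₀ hn'] at hle
      rw [← Real.exp_nat_mul, ← Real.le_log_iff_exp_le (hpos n)]
      linarith

theorem Subexp.mono {f g : ℕ → ℕ} (h : Subexp g) (hfg : ∀ n, f n ≤ g n) : Subexp f := by
  intro c hc
  filter_upwards [h c hc] with n hn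
  exact le_trans (by exact_mod_cast hfg n) hn

/-- if `f` is subexponential, then eventually `f n + 1 ≤ c ^ n` -/
theorem Subexp.add_one {f : ℕ → ℕ} (h : Subexp f) {c : ℝ} (hc : 1 < c) :
    ∀ᶠ n : ℕ in atTop, (f n : ℝ) + 1 ≤ c ^ n := by
  -- c = d^2
  set d := Real.sqrt c with hd
  have hd1 : 1 < d := by
    rw [hd]; exact Real.lt_sqrt_of_sq_lt (by simpa using hc)
  have hdd : d ^ 2 = c := Real.sq_sqrt (by linarith)
  have h2 : Tendsto (fun n : ℕ => d ^ n) atTop atTop := tendsto_pow_atTop_atTop_of_one_lt hd1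
  filter_upwards [h d hd1, h2.eventually_ge_atTop 2] with n hn hn2
  have e : c ^ n = d ^ n * d ^ n := by rw [← hdd, ← pow_mul, ← pow_add]; ring_nf
  rw [e]
  nlinarith

/-- diagonal majorant: a strictly increasing subexponential function which eventually dominates
every member of a given sequence of subexponential functions -/
theorem exists_majorant (G : ℕ → ℕ → ℕ) (hG : ∀ i, Subexp (G i)) :
    ∃ f : ℕ → ℕ, StrictMono f ∧ Subexp f ∧ ∀ i, ∀ᶠ n in atTop, G i n ≤ f n := by
  classical
  -- admissibility
  let P : ℕ → ℕ → Prop := fun i n => ∀ k, n ≤ k → (G i k : ℝ) ≤ ((1 : ℝ) + 1 / ((i : ℝ) + 1)) ^ k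
  have hP : ∀ i, ∀ᶠ n in atTop, P i n := by
    intro i
    have hi : (1 : ℝ) < 1 + 1 / ((i : ℝ) + 1) := by
      have : (0 : ℝ) < 1 / ((i : ℝ) + 1) := by positivity
      linarith
    obtain ⟨N, hN⟩ := eventually_atTop.1 (hG i _ hi)
    filter_upwards [eventually_ge_atTop N] with n hn k hk
    exact hN k (le_trans hn hk)
  let B : ℕ → ℕ := fun m => ((Finset.range (m + 1)).filter (fun i => P i m)).sup (fun i => G i m)
  let f : ℕ → ℕ := fun n => n + (Finset.range (n + 1)).sup B
  refine ⟨f, ?_, ?_, ?_⟩
  · intro a b hab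
    have : (Finset.range (a + 1)).sup B ≤ (Finset.range (b + 1)).sup B :=
      Finset.sup_mono (Finset.range_mono (by omega))
    simp only [f]
    omega
  · -- subexponential
    have hB : Subexp B := by
      intro c hc
      obtain ⟨i0, hi0⟩ := exists_nat_one_div_lt (sub_pos.2 hc)
      have hfin : ∀ᶠ n in atTop, ∀ i ∈ Finset.range i0, (G i n : ℝ) ≤ c ^ n := by
        rw [Filter.eventually_all_finset]
        intro i _
        exact hG i c hc
      filter_upwards [hfin] with m hm
      have hm0 : (0 : ℝ) ≤ c ^ m := by positivity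
      rcases Finset.exists_mem_eq_sup' (s := (Finset.range (m + 1)).filter (fun i => P i m) ∪ {m})
        (by simp) (fun i => if P i m then G i m else 0) with ⟨i, hi, hi'⟩
      -- use a bound for each member
      have : ((B m : ℕ) : ℝ) ≤ c ^ m := by
        have hall : ∀ i ∈ (Finset.range (m + 1)).filter (fun i => P i m), (G i m : ℝ) ≤ c ^ m := by
          intro i hi
          by_cases h : i < i0
          · exact hm i (Finset.mem_range.2 h)
          · push Not at h
            have h2 := (Finset.mem_filter.1 hi).2 m le_rfl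
            refine le_trans h2 (pow_le_pow_left₀ (by positivity) ?_ _)
            have h3 : (1 : ℝ) / ((i : ℝ) + 1) ≤ 1 / ((i0 : ℝ) + 1) := by
              apply one_div_le_one_div_of_le (by positivity)
              have : (i0 : ℝ) ≤ i := by exact_mod_cast h
              linarith
            linarith
        have hfl : B m ≤ ⌊c ^ m⌋₊ := by
          apply Finset.sup_le
          intro i hi
          exact Nat.le_floor (hall i hi)
        exact le_trans (by exact_mod_cast hfl) (Nat.floor_le hm0)
      exact this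
    intro c hc
    set d := Real.sqrt c with hd
    have hd1 : 1 < d := by
      rw [hd]; exact Real.lt_sqrt_of_sq_lt (by simpa using hc)
    have hdd : d ^ 2 = c := Real.sq_sqrt (by linarith)
    obtain ⟨M, hM⟩ := eventually_atTop.1 (hB d hd1)
    -- constant
    set K : ℕ := (Finset.range (M + 1)).sup B with hK
    have hsup : ∀ n : ℕ, (((Finset.range (n + 1)).sup B : ℕ) : ℝ) ≤ K + d ^ n := by
      intro n
      have hfl : (Finset.range (n + 1)).sup B ≤ K + ⌊d ^ n⌋₊ := by
        apply Finset.sup_le
        intro m hm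
        by_cases h : m ≤ M
        · have : B m ≤ K := Finset.le_sup (f := B) (Finset.mem_range.2 (by omega))
          omega
        · have h1 := hM m (by omega)
          have h2 : d ^ m ≤ d ^ n := pow_le_pow_right₀ hd1.le (by
            have := Finset.mem_range.1 hm; omega)
          have : B m ≤ ⌊d ^ n⌋₊ := Nat.le_floor (h1.trans h2)
          omega
      have h3 : (((Finset.range (n + 1)).sup B : ℕ) : ℝ) ≤ ((K + ⌊d ^ n⌋₊ : ℕ) : ℝ) := by
        exact_mod_cast hfl
      refine h3.trans ?_
      push_cast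
      have := Nat.floor_le (a := d ^ n) (by positivity)
      linarith
    have hnK : Subexp (fun n => n + K) := by
      intro e he
      -- n + K ≤ e ^ n eventually
      have ht : Tendsto (fun n : ℕ => (n : ℝ) ^ 1 / e ^ n) atTop (𝓝 0) :=
        tendsto_pow_const_div_const_pow_of_one_lt 1 he
      have ht2 : Tendsto (fun n : ℕ => (K : ℝ) / e ^ n) atTop (𝓝 0) :=
        Tendsto.const_div_atTop (tendsto_pow_atTop_atTop_of_one_lt he) _
      have ht3 := ht.add ht2
      rw [add_zero] at ht3
      filter_upwards [ht3.eventually (gt_mem_nhds (zero_lt_one))] with n hn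
      have hen : (0 : ℝ) < e ^ n := by positivity
      rw [← add_div, div_lt_one hen] at hn
      push_cast
      rw [pow_one] at hn
      exact hn.le
    filter_upwards [hnK.add_one hd1, (tendsto_pow_atTop_atTop_of_one_lt hd1).eventually_ge_atTop 2]
      with n hn hn2
    have e : c ^ n = d ^ n * d ^ n := by rw [← hdd, ← pow_mul, ← pow_add]; ring_nf
    have h4 := hsup n
    simp only [f]
    push_cast at hn ⊢
    rw [e]
    nlinarith
  · intro i
    filter_upwards [hP i, eventually_ge_atTop i] with n hn hin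
    have h1 : G i n ≤ B n := by
      apply Finset.le_sup (f := fun i => G i n)
      simp only [Finset.mem_filter, Finset.mem_range]
      exact ⟨by omega, hn⟩
    have h2 : B n ≤ (Finset.range (n + 1)).sup B :=
      Finset.le_sup (f := B) (Finset.mem_range.2 (by omega))
    simp only [f]
    omega

/-- a subexponential function is below `C 2^(Cn)` -/
theorem Subexp.dominated {f : ℕ → ℕ} (h : Subexp f) :
    ∃ C : ℕ, 1 ≤ C ∧ ∀ n, f n ≤ C * 2 ^ (C * n) := by
  obtain ⟨N, hN⟩ := eventually_atTop.1 (h 2 (by norm_num))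
  refine ⟨1 + (Finset.range (N + 1)).sup f, by omega, fun n => ?_⟩
  set K := (Finset.range (N + 1)).sup f with hK
  by_cases hn : n ≤ N
  · have h1 : f n ≤ K := Finset.le_sup (f := f) (Finset.mem_range.2 (by omega))
    calc f n ≤ (1 + K) * 1 := by omega
      _ ≤ (1 + K) * 2 ^ ((1 + K) * n) := Nat.mul_le_mul_left _ Nat.one_le_two_pow
  · have h1 : f n ≤ 2 ^ n := by
      have := hN n (by omega)
      exact_mod_cast this
    calc f n ≤ 2 ^ n := h1
      _ ≤ 2 ^ ((1 + K) * n) := Nat.pow_le_pow_right (by norm_num) (by nlinarith)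
      _ ≤ (1 + K) * 2 ^ ((1 + K) * n) := Nat.le_mul_of_pos_left _ (by omega)

/-- a subexponential function does not dominate `2^n` -/
theorem Subexp.not_dominates {f : ℕ → ℕ} (h : Subexp f) :
    ¬ ∃ C : ℕ, 1 ≤ C ∧ ∀ n, 2 ^ n ≤ C * f (C * n) := by
  rintro ⟨C, hC, hn⟩
  -- c = 2^(1/(2C))
  have hC0 : (0 : ℝ) < C := by exact_mod_cast hC
  set c : ℝ := (2 : ℝ) ^ ((1 : ℝ) / (2 * C)) with hc
  have hc1 : 1 < c := Real.one_lt_rpow (by norm_num) (by positivity)
  have hcpow : ∀ n : ℕ, c ^ (C * n) = (Real.sqrt 2) ^ n := by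
    intro n
    rw [pow_mul]
    congr 1
    rw [hc, ← Real.rpow_natCast, ← Real.rpow_mul (by norm_num), Real.sqrt_eq_rpow]
    congr 1
    field_simp
  have ht : Tendsto (fun n : ℕ => C * n) atTop atTop :=
    tendsto_id.const_mul_atTop' (by omega)
  have h1 := ht.eventually (h c hc1)
  have hs2 : (1 : ℝ) < Real.sqrt 2 := Real.lt_sqrt_of_sq_lt (by norm_num)
  have h2 : Tendsto (fun n : ℕ => (Real.sqrt 2) ^ n) atTop atTop :=
    tendsto_pow_atTop_atTop_of_one_lt hs2
  obtain ⟨n, hn1, hn2⟩ := (h1.and (h2.eventually_gt_atTop (C : ℝ))).exists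
  have h3 : ((2 : ℝ)) ^ n ≤ C * f (C * n) := by exact_mod_cast hn n
  rw [hcpow] at hn1
  have e : (2 : ℝ) ^ n = Real.sqrt 2 ^ n * Real.sqrt 2 ^ n := by
    rw [← mul_pow, Real.mul_self_sqrt (by norm_num)]
  have h4 : (0 : ℝ) < Real.sqrt 2 ^ n := by positivity
  have h5 : (C : ℝ) * f (C * n) ≤ C * Real.sqrt 2 ^ n := by
    exact mul_le_mul_of_nonneg_left hn1 hC0.le
  nlinarith

end Pool.Agent.Y27.Osc
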